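import Pool.Agent.Y262.EG.Stm

/-!
# Project EG, part TAIL: the moments and the decay of the solutions of the Jacobi equation
-/

set_option autoImplicit false

open Set Filter Topology MeasureTheory
open scoped ContDiff

noncomputable section

namespace Pool.Agent.Y80.EG

open Pool.Agent.Y262.EG

/-- a power times an exponential is bounded -/
theorem pow_exp_bound {ρ : ℝ} (h0 : 0 < ρ) (h1 : ρ < 1) :
    ∃ M : ℝ, 0 < M ∧ ∀ X : ℝ, 0 ≤ X → X ^ 12 * ρ ^ X ≤ M := by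
  have hb : 0 < -Real.log ρ := by
    have := Real.log_neg h0 h1
    linarith
  set b := -Real.log ρ with hbdef
  refine ⟨(Nat.factorial 12 : ℝ) / b ^ 12, by positivity, fun X hX => ?_⟩
  have h2 : (b * X) ^ 12 / (Nat.factorial 12 : ℝ) ≤ Real.exp (b * X) :=
    Real.pow_div_factorial_le_exp (b * X) (by positivity) 12
  have h3 : ρ ^ X = Real.exp (-(b * X)) := by
    rw [Real.rpow_def_of_pos h0, hbdef]
    congr 1
    ring
  have hf : (0 : ℝ) < (Nat.factorial 12 : ℝ) := by positivity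
  rw [h3, Real.exp_neg, le_div_iff₀ (by positivity)]
  rw [div_le_iff₀ hf] at h2
  have h4 : X ^ 12 * (Real.exp (b * X))⁻¹ * b ^ 12 = (b * X) ^ 12 * (Real.exp (b * X))⁻¹ := by ring
  rw [h4, ← div_eq_mul_inv, div_le_iff₀ (Real.exp_pos _)]
  linarith

/-- the numbers `2 ^ (J / 4)` -/
theorem X_facts (J : ℕ) :
    1 ≤ (2 : ℝ) ^ ((J : ℝ) / 4) ∧ ((2 : ℝ) ^ ((J : ℝ) / 4)) ^ 4 = (2 : ℝ) ^ J := by
  constructor
  · exact Real.one_le_rpow (by norm_num) (by positivity)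
  · rw [← Real.rpow_natCast ((2 : ℝ) ^ ((J : ℝ) / 4)) 4, ← Real.rpow_mul (by norm_num),
      ← Real.rpow_natCast (2 : ℝ) J]
    congr 1
    push_cast
    ring

/-- the integral of the weight -/
theorem integral_Z {y : ℝ → ℝ} (hyc : Continuous y) {T a K : ℝ} (hT : 0 ≤ T) (ha : 1 ≤ a)
    (hK : 0 ≤ K) (h1 : ∀ t ∈ Icc 0 T, y t ≤ 1)
    (h2 : ∀ t ∈ Icc 0 T, a ≤ t → (1 + t) * y t ≤ K / (1 + t) ^ 2) :
    ∫ t in (0 : ℝ)..T, (1 + t) * y t ≤ 2 * a ^ 2 + K := by
  have hci : ∀ p q : ℝ, IntervalIntegrable (fun t => (1 + t) * y t) volume p q := fun p q =>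
    ((continuous_const.add continuous_id).mul hyc).intervalIntegrable p q
  have hc1 : ∀ p q : ℝ, IntervalIntegrable (fun t : ℝ => 1 + t) volume p q := fun p q =>
    (continuous_const.add continuous_id).intervalIntegrable p q
  have hI1 : ∀ q : ℝ, 0 ≤ q → q ≤ T → ∫ t in (0 : ℝ)..q, (1 + t) * y t ≤ q + q ^ 2 / 2 := by
    intro q hq hqT
    have h3 : ∫ t in (0 : ℝ)..q, (1 + t) * y t ≤ ∫ t in (0 : ℝ)..q, (1 + t) := by
      apply intervalIntegral.integral_mono_on hq (hci 0 q) (hc1 0 q)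
      intro t ht
      have := h1 t ⟨ht.1, ht.2.trans hqT⟩
      have h5 : 0 ≤ 1 + t := by linarith [ht.1]
      nlinarith
    have h4 : ∫ t in (0 : ℝ)..q, (1 + t) = q + q ^ 2 / 2 := by
      have hd : ∀ t ∈ uIcc (0 : ℝ) q, HasDerivAt (fun t : ℝ => t + t ^ 2 / 2) (1 + t) t := by
        intro t _
        have h9 := (hasDerivAt_id t).add (((hasDerivAt_id t).pow 2).div_const 2)
        exact h9.congr_deriv (by simp)
      rw [intervalIntegral.integral_eq_sub_of_hasDerivAt hd (hc1 0 q)]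
      simp
    rw [h4] at h3
    exact h3
  rcases le_or_gt T a with hTa | hTa
  · have := hI1 T hT le_rfl
    nlinarith
  · have ha0 : (0 : ℝ) ≤ a := by linarith
    rw [← intervalIntegral.integral_add_adjacent_intervals (hci 0 a) (hci a T)]
    have h6 := hI1 a ha0 hTa.le
    have hne : ∀ t ∈ Icc a T, (1 + t) ≠ 0 := fun t ht => by
      have := ht.1
      linarith
    have hcK : ContinuousOn (fun t : ℝ => K / (1 + t) ^ 2) (Icc a T) := by
      apply ContinuousOn.div continuousOn_const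
      · fun_prop
      · intro t ht
        exact pow_ne_zero 2 (hne t ht)
    have hiK : IntervalIntegrable (fun t : ℝ => K / (1 + t) ^ 2) volume a T := by
      apply ContinuousOn.intervalIntegrable
      rwa [uIcc_of_le hTa.le]
    have h7 : ∫ t in a..T, (1 + t) * y t ≤ ∫ t in a..T, K / (1 + t) ^ 2 := by
      apply intervalIntegral.integral_mono_on hTa.le (hci a T) hiK
      intro t ht
      exact h2 t ⟨by linarith [ht.1], ht.2⟩ ht.1
    have h8 : ∫ t in a..T, K / (1 + t) ^ 2 = -(K / (1 + T)) - -(K / (1 + a)) := by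
      have hd : ∀ t ∈ uIcc a T, HasDerivAt (fun t : ℝ => -(K / (1 + t))) (K / (1 + t) ^ 2) t := by
        intro t ht
        rw [uIcc_of_le hTa.le] at ht
        have h9 := (((hasDerivAt_id t).const_add 1).inv (hne t ht)).const_mul (-K)
        have h10 : (fun t : ℝ => -(K / (1 + t))) = fun y => -K * (fun x : ℝ => 1 + x)⁻¹ y := by
          funext t
          simp [div_eq_mul_inv]
        rw [h10]
        exact h9.congr_deriv (by simp only [id]; ring)
      rw [intervalIntegral.integral_eq_sub_of_hasDerivAt hd hiK]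
    have h10 : 0 ≤ K / (1 + T) := div_nonneg hK (by linarith)
    have h11 : K / (1 + a) ≤ K := div_le_self hK (by linarith)
    nlinarith

theorem summ {θ : ℝ} (hθ : 0 < θ) : Summable fun J : ℕ => (2 : ℝ) ^ (-(θ * J)) := by
  have h : (fun J : ℕ => (2 : ℝ) ^ (-(θ * J))) = fun J : ℕ => ((2 : ℝ) ^ (-θ)) ^ J := by
    funext J
    rw [← Real.rpow_natCast, ← Real.rpow_mul (by norm_num)]
    congr 1
    ring
  rw [h]
  exact summable_geometric_of_lt_one (by positivity)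
    (Real.rpow_lt_one_of_one_lt_of_neg (by norm_num) (by linarith))

section

variable {P : Type} [TopologicalSpace P] [MeasurableSpace P] {m : Measure P} {Fl : ℝ → P → P}
  {Ac : (P → ℝ) → Prop} {dX dH dV : (P → ℝ) → P → ℝ} {k : P → ℝ} {c c1 s s1 : ℝ → P → ℝ}

/-- pointwise facts on the solutions of the Jacobi equation -/
theorem point (hJ : StJac1) (hpk : Pk m Fl Ac dX dH dV k c c1 s s1) (x : P) {T : ℝ} (hT : 0 < T) :
    (∀ t ∈ Icc 0 T, 0 ≤ yy c s T t x ∧ yy c s T t x ≤ 1) ∧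
      AntitoneOn (fun t => yy c s T t x) (Icc 0 T) ∧ Continuous (fun t => yy c s T t x) := by
  obtain ⟨_, _, _, h⟩ := hJ _ _ _ _ _ (hpk.jac x) (fun t => hpk.k0 _)
  obtain ⟨_, h1, _, h2, _⟩ := h T (uu c s T x) (fun t => yy c s T t x)
    (fun t => c1 t x + uu c s T x * s1 t x) hT rfl (fun t => rfl) (fun t => rfl)
  refine ⟨fun t ht => ⟨(h1 t ht).1, (h1 t ht).2.1⟩, h2, ?_⟩
  have hc : Continuous fun t => c t x :=
    hpk.jc.1.comp (Continuous.prodMk continuous_id continuous_const)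
  have hs : Continuous fun t => s t x :=
    hpk.jc.2.2.1.comp (Continuous.prodMk continuous_id continuous_const)
  exact hc.add (continuous_const.mul hs)

theorem Zbound (hJ : StJac1) (hpk : Pk m Fl Ac dX dH dV k c c1 s s1) {C ρ M : ℝ} (hC : 0 < C)
    (h0 : 0 < ρ) (hM : 0 < M) (hM' : ∀ X : ℝ, 0 ≤ X → X ^ 12 * ρ ^ X ≤ M) (x : P) (J0 : ℕ)
    (hx : ∀ J, J0 ≤ J → ∀ T : ℝ, (2 : ℝ) ^ J ≤ T →
      yy c s T ((2 : ℝ) ^ J) x ≤ C * ρ ^ ((2 : ℝ) ^ ((J : ℝ) / 4))) {T : ℝ} (hT : 1 ≤ T) :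
    ∫ t in (0 : ℝ)..T, (1 + t) * yy c s T t x ≤ 2 * ((2 : ℝ) ^ J0) ^ 2 + 27 * C * M := by
  obtain ⟨h1, h2, h3⟩ := point hJ hpk x (show 0 < T by linarith)
  refine integral_Z h3 (by linarith) (one_le_pow₀ (by norm_num)) (by positivity)
    (fun t ht => (h1 t ht).2) ?_
  intro t ht hat
  have ht1 : (1 : ℝ) ≤ t := (one_le_pow₀ (by norm_num)).trans hat
  obtain ⟨J, hJ1, hJ2⟩ := exists_nat_pow_near ht1 (show (1 : ℝ) < 2 by norm_num)
  have hJJ : J0 ≤ J := by
    have h4 : (2 : ℝ) ^ J0 < (2 : ℝ) ^ (J + 1) := hat.trans_lt hJ2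
    have h5 := (pow_lt_pow_iff_right₀ (show (1 : ℝ) < 2 by norm_num)).1 h4
    omega
  have h6 : yy c s T t x ≤ C * ρ ^ ((2 : ℝ) ^ ((J : ℝ) / 4)) :=
    (h2 (show (2 : ℝ) ^ J ∈ Icc 0 T from ⟨by positivity, hJ1.trans ht.2⟩) ht hJ1).trans
      (hx J hJJ T (hJ1.trans ht.2))
  obtain ⟨hX1, hX4⟩ := X_facts J
  set X := (2 : ℝ) ^ ((J : ℝ) / 4) with hX
  have h7 : 1 + t ≤ 3 * X ^ 4 := by
    have : (1 : ℝ) ≤ X ^ 4 := one_le_pow₀ hX1
    rw [pow_succ, ← hX4] at hJ2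
    linarith
  have h8 : (1 + t) ^ 3 ≤ 27 * X ^ 12 := by
    calc (1 + t) ^ 3 ≤ (3 * X ^ 4) ^ 3 := pow_le_pow_left₀ (by linarith) h7 3
      _ = 27 * X ^ 12 := by ring
  have h9 : 0 ≤ yy c s T t x := (h1 t ht).1
  have h10 := hM' X (by linarith)
  rw [le_div_iff₀ (by positivity)]
  calc (1 + t) * yy c s T t x * (1 + t) ^ 2 = (1 + t) ^ 3 * yy c s T t x := by ring
    _ ≤ (27 * X ^ 12) * (C * ρ ^ X) := mul_le_mul h8 h6 h9 (by positivity)
    _ = 27 * C * (X ^ 12 * ρ ^ X) := by ring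
    _ ≤ 27 * C * M := mul_le_mul_of_nonneg_left h10 (by positivity)

theorem Zpow (hJ : StJac1) (hpk : Pk m Fl Ac dX dH dV k c c1 s s1) {C ρ M : ℝ} (hC : 0 < C)
    (h0 : 0 < ρ) (hM : 0 < M) (hM' : ∀ X : ℝ, 0 ≤ X → X ^ 12 * ρ ^ X ≤ M) (x : P) (J0 : ℕ)
    (hx : ∀ J, J0 ≤ J → ∀ T : ℝ, (2 : ℝ) ^ J ≤ T →
      yy c s T ((2 : ℝ) ^ J) x ≤ C * ρ ^ ((2 : ℝ) ^ ((J : ℝ) / 4))) {T : ℝ} (hT : 1 ≤ T) :
    (∫ t in (0 : ℝ)..T, (1 + t) * yy c s T t x) ^ (1 / 20 : ℝ) ≤
      (2 + 27 * C * M) ^ (1 / 20 : ℝ) * (2 : ℝ) ^ ((J0 : ℝ) / 10) := by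
  have hZ := Zbound hJ hpk hC h0 hM hM' x J0 hx hT
  obtain ⟨h1, h2, h3⟩ := point hJ hpk x (show 0 < T by linarith)
  have hZ0 : 0 ≤ ∫ t in (0 : ℝ)..T, (1 + t) * yy c s T t x := by
    apply intervalIntegral.integral_nonneg (by linarith)
    intro t ht
    exact mul_nonneg (by linarith [ht.1]) (h1 t ht).1
  have h4 : (1 : ℝ) ≤ ((2 : ℝ) ^ J0) ^ 2 := one_le_pow₀ (one_le_pow₀ (by norm_num))
  have hCM : 0 < C * M := mul_pos hC hM
  have h5 : ∫ t in (0 : ℝ)..T, (1 + t) * yy c s T t x ≤ (2 + 27 * C * M) * ((2 : ℝ) ^ J0) ^ 2 := by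
    nlinarith
  have h6 : (((2 : ℝ) ^ J0) ^ 2) ^ (1 / 20 : ℝ) = (2 : ℝ) ^ ((J0 : ℝ) / 10) := by
    rw [← pow_mul, ← Real.rpow_natCast, ← Real.rpow_mul (by norm_num)]
    congr 1
    push_cast
    ring
  calc (∫ t in (0 : ℝ)..T, (1 + t) * yy c s T t x) ^ (1 / 20 : ℝ)
      ≤ ((2 + 27 * C * M) * ((2 : ℝ) ^ J0) ^ 2) ^ (1 / 20 : ℝ) :=
        Real.rpow_le_rpow hZ0 h5 (by norm_num)
    _ = (2 + 27 * C * M) ^ (1 / 20 : ℝ) * (2 : ℝ) ^ ((J0 : ℝ) / 10) := by
        rw [Real.mul_rpow (by positivity) (by positivity), h6]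

end

/-- part TAIL -/
theorem tail : StJac1 → StBad → StTail := by
  intro hJ hB P _ _ _ _ m Fl Ac dX dH dV k c c1 s s1 hpk
  obtain ⟨C0, ρ, B, hρ0, hρ1, hBm, hBμ, hBy⟩ := hB P m Fl Ac dX dH dV k c c1 s s1 hpk
  have hfin : IsFiniteMeasure m := hpk.fin
  set C := max C0 1 with hC
  have hC1 : 1 ≤ C := le_max_right _ _
  have hC0 : C0 ≤ C := le_max_left _ _
  have hCp : 0 < C := by linarith
  have hBμ' : ∀ J : ℕ, m (B J) ≤ ENNReal.ofReal (C * (2 : ℝ) ^ (-(J : ℝ) / 8)) := fun J =>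
    (hBμ J).trans (ENNReal.ofReal_le_ofReal (mul_le_mul_of_nonneg_right hC0 (by positivity)))
  have hBy' : ∀ (J : ℕ) (x : P), x ∉ B J → ∀ T : ℝ, (2 : ℝ) ^ J ≤ T →
      yy c s T ((2 : ℝ) ^ J) x ≤ C * ρ ^ ((2 : ℝ) ^ ((J : ℝ) / 4)) := fun J x hx T hT =>
    (hBy J x hx T hT).trans (mul_le_mul_of_nonneg_right hC0 (by positivity))
  obtain ⟨M, hM, hM'⟩ := pow_exp_bound hρ0 hρ1
  have hsum1 : ∑' J, m (B J) ≠ ⊤ := by
    have h1 : Summable fun J : ℕ => C * (2 : ℝ) ^ (-(J : ℝ) / 8) := by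
      have := (summ (show (0 : ℝ) < 1 / 8 by norm_num)).mul_left C
      refine this.congr fun J => ?_
      congr 2
      ring
    exact ne_top_of_le_ne_top h1.tsum_ofReal_ne_top (ENNReal.tsum_le_tsum hBμ')
  have hae : ∀ᵐ x ∂m, ∀ᶠ J in atTop, x ∉ B J := ae_eventually_notMem hsum1
  constructor
  · set C3 := (2 + 27 * C * M) ^ (1 / 20 : ℝ) with hC3
    have hC3p : 0 < C3 := by positivity
    set G : P → ENNReal := fun x => ENNReal.ofReal C3 *
      (1 + ∑' J : ℕ, (B J).indicator (fun _ => ENNReal.ofReal (2 * (2 : ℝ) ^ ((J : ℝ) / 10))) x)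
      with hG
    have hle : ∀ T : ℝ, 1 ≤ T → ∀ᵐ x ∂m,
        ENNReal.ofReal ((∫ t in (0 : ℝ)..T, (1 + t) * yy c s T t x) ^ (1 / 20 : ℝ)) ≤ G x := by
      intro T hT
      filter_upwards [hae] with x hx
      classical
      have hex : ∃ J0, ∀ J, J0 ≤ J → x ∉ B J := eventually_atTop.1 hx
      have hspec := Nat.find_spec hex
      have hmin := fun j (hj : j < Nat.find hex) => Nat.find_min hex hj
      have hz := Zpow hJ hpk hCp hρ0 hM hM' x (Nat.find hex)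
        (fun J hJ' => hBy' J x (hspec J hJ')) hT
      rcases Nat.eq_zero_or_pos (Nat.find hex) with h0 | h0
      · rw [h0] at hz
        simp only [Nat.cast_zero, zero_div, Real.rpow_zero, mul_one] at hz
        calc _ ≤ ENNReal.ofReal C3 := ENNReal.ofReal_le_ofReal hz
          _ ≤ G x := le_mul_of_one_le_right (by positivity) le_self_add
      · obtain ⟨j, hj⟩ : ∃ j, Nat.find hex = j + 1 := ⟨Nat.find hex - 1, by omega⟩
        have hxj : x ∈ B j := by
          by_contra hxj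
          refine hmin j (by omega) fun J hJj => ?_
          rcases eq_or_lt_of_le hJj with h | h
          · rw [← h]
            exact hxj
          · exact hspec J (by omega)
        have h2 : (2 : ℝ) ^ (((Nat.find hex : ℕ) : ℝ) / 10) ≤ 2 * (2 : ℝ) ^ ((j : ℝ) / 10) := by
          rw [hj]
          have h3 : (((j + 1 : ℕ) : ℝ)) / 10 = 1 / 10 + (j : ℝ) / 10 := by
            push_cast
            ring
          rw [h3, Real.rpow_add (by norm_num)]
          refine mul_le_mul_of_nonneg_right ?_ (by positivity)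
          calc (2 : ℝ) ^ (1 / 10 : ℝ) ≤ (2 : ℝ) ^ (1 : ℝ) :=
                Real.rpow_le_rpow_of_exponent_le (by norm_num) (by norm_num)
            _ = 2 := Real.rpow_one 2
        calc ENNReal.ofReal ((∫ t in (0 : ℝ)..T, (1 + t) * yy c s T t x) ^ (1 / 20 : ℝ))
            ≤ ENNReal.ofReal (C3 * (2 * (2 : ℝ) ^ ((j : ℝ) / 10))) :=
              ENNReal.ofReal_le_ofReal (hz.trans (mul_le_mul_of_nonneg_left h2 hC3p.le))
          _ = ENNReal.ofReal C3 * ENNReal.ofReal (2 * (2 : ℝ) ^ ((j : ℝ) / 10)) :=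
              ENNReal.ofReal_mul hC3p.le
          _ ≤ G x := by
              apply mul_le_mul_right
              have h4 : ENNReal.ofReal (2 * (2 : ℝ) ^ ((j : ℝ) / 10)) =
                  (B j).indicator (fun _ => ENNReal.ofReal (2 * (2 : ℝ) ^ ((j : ℝ) / 10))) x := by
                rw [Set.indicator_of_mem hxj]
              rw [h4]
              exact (ENNReal.le_tsum (f := fun J : ℕ => (B J).indicator
                (fun _ => ENNReal.ofReal (2 * (2 : ℝ) ^ ((J : ℝ) / 10))) x) j).trans le_add_self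
    have hfinG : ∫⁻ x, G x ∂m ≠ ⊤ := by
      have h1 : ∫⁻ x, G x ∂m = ENNReal.ofReal C3 * (m univ + ∑' J : ℕ,
          ENNReal.ofReal (2 * (2 : ℝ) ^ ((J : ℝ) / 10)) * m (B J)) := by
        rw [hG, lintegral_const_mul' _ _ ENNReal.ofReal_ne_top, lintegral_add_left measurable_const,
          lintegral_tsum (fun J => (measurable_const.indicator (hBm J)).aemeasurable)]
        simp [hBm]
      have h2 : ∑' J : ℕ, ENNReal.ofReal (2 * (2 : ℝ) ^ ((J : ℝ) / 10)) * m (B J) ≠ ⊤ := by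
        have h3 : Summable fun J : ℕ => 2 * C * (2 : ℝ) ^ (-((1 / 40 : ℝ) * J)) :=
          (summ (show (0 : ℝ) < 1 / 40 by norm_num)).mul_left (2 * C)
        refine ne_top_of_le_ne_top h3.tsum_ofReal_ne_top (ENNReal.tsum_le_tsum fun J => ?_)
        calc ENNReal.ofReal (2 * (2 : ℝ) ^ ((J : ℝ) / 10)) * m (B J)
            ≤ ENNReal.ofReal (2 * (2 : ℝ) ^ ((J : ℝ) / 10)) *
              ENNReal.ofReal (C * (2 : ℝ) ^ (-(J : ℝ) / 8)) := by
              gcongr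
              exact hBμ' J
          _ = ENNReal.ofReal (2 * C * (2 : ℝ) ^ (-((1 / 40 : ℝ) * J))) := by
              rw [← ENNReal.ofReal_mul (by positivity)]
              congr 1
              have h4 : -((1 / 40 : ℝ) * J) = (J : ℝ) / 10 + -(J : ℝ) / 8 := by ring
              rw [h4, Real.rpow_add (by norm_num)]
              ring
      rw [h1]
      exact ENNReal.mul_ne_top ENNReal.ofReal_ne_top
        (ENNReal.add_ne_top.2 ⟨measure_ne_top m univ, h2⟩)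
    refine ⟨(∫⁻ x, G x ∂m).toReal, fun T hT => ?_⟩
    rw [ENNReal.ofReal_toReal hfinG]
    exact lintegral_mono_ae (hle T hT)
  · filter_upwards [hae] with x hx
    intro ε hε
    obtain ⟨J0, hJ0⟩ := eventually_atTop.1 hx
    obtain ⟨n, hn⟩ := pow_unbounded_of_one_lt (C * M / ε) (show (1 : ℝ) < 2 by norm_num)
    set J := max J0 n with hJdef
    refine ⟨(2 : ℝ) ^ J, fun t T ht hT => ?_⟩
    have hpos : (0 : ℝ) < (2 : ℝ) ^ J := by positivity
    have hTpos : 0 < T := by linarith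
    obtain ⟨h1, h2, h3⟩ := point hJ hpk x hTpos
    have h4 : yy c s T t x ≤ yy c s T ((2 : ℝ) ^ J) x :=
      h2 (show (2 : ℝ) ^ J ∈ Icc 0 T from ⟨hpos.le, ht.trans hT⟩)
        (show t ∈ Icc 0 T from ⟨hpos.le.trans ht, hT⟩) ht
    have h5 := hBy' J x (hJ0 J (le_max_left _ _)) T (ht.trans hT)
    obtain ⟨hX1, hX4⟩ := X_facts J
    have h10 := hM' ((2 : ℝ) ^ ((J : ℝ) / 4)) (by linarith)
    set X := (2 : ℝ) ^ ((J : ℝ) / 4) with hX
    have h11 : X ^ 4 * ρ ^ X ≤ M := by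
      refine le_trans ?_ h10
      exact mul_le_mul_of_nonneg_right (pow_le_pow_right₀ hX1 (by norm_num)) (by positivity)
    rw [hX4] at h11
    have h12 : C * M / ε ≤ (2 : ℝ) ^ J :=
      hn.le.trans (pow_le_pow_right₀ (by norm_num) (le_max_right _ _))
    rw [div_le_iff₀ hε] at h12
    have h13 : (2 : ℝ) ^ J * (C * ρ ^ X) ≤ (2 : ℝ) ^ J * ε := by
      calc (2 : ℝ) ^ J * (C * ρ ^ X) = C * ((2 : ℝ) ^ J * ρ ^ X) := by ring
        _ ≤ C * M := mul_le_mul_of_nonneg_left h11 hCp.le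
        _ ≤ (2 : ℝ) ^ J * ε := h12
    have h14 : C * ρ ^ X ≤ ε := le_of_mul_le_mul_left h13 hpos
    linarith

end Pool.Agent.Y80.EG
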